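import Mathlib

/-!
# The interval-order identity (2) at every root of unity
-/

open Finset PowerSeries

namespace Pool.Agent.Results.MP_12a8d1_co.PolynomialExpansion

/-- The ring `ℂ[p][[v]]`: power series in `v` whose coefficients are polynomials in `p`. -/
abbrev R : Type := PowerSeries (Polynomial ℂ)

/-- A sum `∑_n f n` of elements of `ℂ[p][[v]]` converges if for every `b` only finitely many
summands have a nonzero coefficient of `v ^ b`. -/
def Converges (f : ℕ → R) : Prop := ∀ b : ℕ, {n : ℕ | PowerSeries.coeff b (f n) ≠ 0}.Finite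

/-- The value of a convergent sum: the coefficientwise sum. -/
noncomputable def value (f : ℕ → R) : R := PowerSeries.mk fun b => ∑ᶠ n : ℕ, PowerSeries.coeff b (f n)

/-- The `q`-shifted factorial `(a; r)_n = ∏_{k < n} (1 - a r ^ k)`. -/
noncomputable def poch (a r : R) (n : ℕ) : R := ∏ k ∈ Finset.range n, (1 - a * r ^ k)

/-- The indeterminate `p`. -/
noncomputable def p : R := PowerSeries.C Polynomial.X

/-- The expansion `q = q₀ + v` of `q` at `q₀`. -/
noncomputable def q (q₀ : ℂ) : R := PowerSeries.C (Polynomial.C q₀) + PowerSeries.X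

/-- The expansion of `1 / q` at `q₀` (the inverse of the unit `q₀ + v`, for `q₀ ≠ 0`). -/
noncomputable def qinv (q₀ : ℂ) : R := Ring.inverse (q q₀)

/-- The `n`-th summand `p q ^ n (p; q)_n (q; q)_n` of the left side of (2). -/
noncomputable def lhs (q₀ : ℂ) (n : ℕ) : R := p * q q₀ ^ n * poch p (q q₀) n * poch (q q₀) (q q₀) n

/-- The `n`-th summand `(p / q) ^ (n + 1) (1/q; 1/q)_n` of the right side of (2). -/
noncomputable def rhs (q₀ : ℂ) (n : ℕ) : R :=
  (p * qinv q₀) ^ (n + 1) * poch (qinv q₀) (qinv q₀) n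

lemma value_spec (f : ℕ → R) (h : ∀ m : ℕ, ∃ N : ℕ, ∀ n, N ≤ n → (PowerSeries.X : R) ^ m ∣ f n) :
    Converges f ∧ ∀ m : ℕ, ∃ N₀ : ℕ, ∀ N, N₀ ≤ N →
      (PowerSeries.X : R) ^ m ∣ value f - ∑ n ∈ Finset.range N, f n := by
  have hfin : ∀ b : ℕ, ∃ N : ℕ, ∀ n, N ≤ n → PowerSeries.coeff b (f n) = 0 := by
    intro b
    obtain ⟨N, hN⟩ := h (b + 1)
    exact ⟨N, fun n hn => (PowerSeries.X_pow_dvd_iff.1 (hN n hn)) b (by omega)⟩
  constructor
  · intro b
    obtain ⟨N, hN⟩ := hfin b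
    refine (Set.finite_lt_nat N).subset ?_
    intro n hn
    by_contra hc
    exact hn (hN n (by simpa using hc))
  · intro m
    obtain ⟨N₀, hN₀⟩ := h m
    refine ⟨N₀, fun N hN => ?_⟩
    rw [PowerSeries.X_pow_dvd_iff]
    intro b hb
    rw [map_sub, value, PowerSeries.coeff_mk, map_sum, sub_eq_zero]
    apply finsum_eq_sum_of_support_subset
    intro n hn
    rw [Function.mem_support] at hn
    by_contra hc
    apply hn
    refine (PowerSeries.X_pow_dvd_iff.1 (hN₀ n ?_)) b hb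
    simp at hc
    omega

section
variable {q₀ : ℂ} (h0 : q₀ ≠ 0)
include h0

lemma q_isUnit : IsUnit (q q₀) := by
  rw [PowerSeries.isUnit_iff_constantCoeff]
  unfold q
  rw [map_add, PowerSeries.constantCoeff_C, PowerSeries.constantCoeff_X, add_zero]
  exact (isUnit_iff_ne_zero.2 h0).map Polynomial.C

lemma q_mul_qinv : q q₀ * qinv q₀ = 1 := Ring.mul_inverse_cancel _ (q_isUnit h0)

end

lemma poch_succ (a r : R) (n : ℕ) : poch a r (n + 1) = poch a r n * (1 - a * r ^ n) := by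
  unfold poch
  rw [Finset.prod_range_succ]

lemma poch_succ' (a r : R) (n : ℕ) : poch a r (n + 1) = (1 - a) * poch (a * r) r n := by
  unfold poch
  rw [Finset.prod_range_succ', mul_comm]
  simp only [pow_zero, mul_one]
  congr 1
  refine Finset.prod_congr rfl fun j _ => ?_
  ring

/-- vanishing factors. -/
lemma poch_dvd (r : R) (k : ℕ) (hk : 1 ≤ k) (hr : (PowerSeries.X : R) ∣ 1 - r ^ k) (m : ℕ) :
    ∀ n, k * m ≤ n → (PowerSeries.X : R) ^ m ∣ poch r r n := by
  induction m with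
  | zero => intro n _; simp
  | succ m ih =>
    intro n hn
    have h1 : poch r r (k * m + (k - 1)) ∣ poch r r (k * m + (k - 1)) := dvd_rfl
    have h2 := ih (k * m + (k - 1)) (by omega)
    have h3 : (PowerSeries.X : R) ∣ 1 - r * r ^ (k * m + (k - 1)) := by
      have e : r * r ^ (k * m + (k - 1)) = (r ^ k) ^ (m + 1) := by
        rw [← pow_succ', ← pow_mul]
        congr 1
        rw [mul_add]
        omega
      rw [e]
      have := sub_dvd_pow_sub_pow 1 (r ^ k) (m + 1)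
      rw [one_pow] at this
      exact hr.trans this
    have h4 : (PowerSeries.X : R) ^ (m + 1) ∣ poch r r (k * m + (k - 1) + 1) := by
      rw [poch_succ, pow_succ]
      exact mul_dvd_mul h2 h3
    have h5 : k * m + (k - 1) + 1 ≤ n := by
      rw [mul_add] at hn
      omega
    have h6 : poch r r (k * m + (k - 1) + 1) ∣ poch r r n := by
      unfold poch
      exact Finset.prod_dvd_prod_of_subset _ _ _ (by
        intro x hx
        rw [Finset.mem_range] at *
        omega)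
    exact h4.trans h6

/-- The truncated functional equation of the right side. -/
lemma rhs_fe (r y : R) (x : R) (N : ℕ) :
    x * (∑ n ∈ Finset.range N, x ^ (n + 1) * poch r r n -
      ∑ n ∈ Finset.range N, (x * r) ^ (n + 1) * poch r r n) =
    ∑ n ∈ Finset.range N, x ^ (n + 1) * poch r r n - x + x ^ (N + 1) * poch r r N := by
  induction N with
  | zero => simp [poch]
  | succ N ih =>
    rw [Finset.sum_range_succ, Finset.sum_range_succ, poch_succ]
    linear_combination ih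

/-- The truncated functional equation of the left side. Here `y = y' * q`. -/
lemma lhs_fe (Q y' : R) (N : ℕ) :
    (Q - y' * Q) * ∑ n ∈ Finset.range N, (y' * Q) * Q ^ n * poch (y' * Q) Q n * poch Q Q n =
    (y' * Q) * (1 - ∑ n ∈ Finset.range (N + 1), y' * Q ^ n * poch y' Q n * poch Q Q n) -
      (y' * Q) * (1 - y') * (poch (y' * Q) Q N * poch Q Q N) := by
  induction N with
  | zero => simp [poch]
  | succ N ih =>
    rw [Finset.sum_range_succ, Finset.sum_range_succ _ (N + 1), poch_succ' y' Q N,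
      poch_succ (y' * Q) Q N, poch_succ Q Q N]
    linear_combination ih

section
variable {q₀ : ℂ} {k : ℕ} (hk : 1 ≤ k) (hq₀ : q₀ ^ k = 1)
include hk hq₀

lemma q0_ne : q₀ ≠ 0 := by
  rintro rfl
  rw [zero_pow (by omega)] at hq₀
  exact zero_ne_one hq₀

lemma X_dvd_q : (PowerSeries.X : R) ∣ 1 - q q₀ ^ k := by
  have h1 : q q₀ ^ k - (PowerSeries.C (Polynomial.C q₀)) ^ k = q q₀ ^ k - 1 := by
    rw [← map_pow, ← map_pow, hq₀, map_one, map_one]
  have h2 : (PowerSeries.X : R) ∣ q q₀ ^ k - (PowerSeries.C (Polynomial.C q₀)) ^ k := by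
    refine dvd_trans ?_ (sub_dvd_pow_sub_pow _ _ k)
    unfold q
    rw [add_sub_cancel_left]
  rw [h1] at h2
  rw [← neg_sub]
  exact (dvd_neg.2 h2)

lemma X_dvd_qinv : (PowerSeries.X : R) ∣ 1 - qinv q₀ ^ k := by
  have h := X_dvd_q hk hq₀
  have e : 1 - qinv q₀ ^ k = -(qinv q₀ ^ k) * (1 - q q₀ ^ k) := by
    have : (q q₀ * qinv q₀) ^ k = 1 := by rw [q_mul_qinv (q0_ne hk hq₀), one_pow]
    rw [mul_pow] at this
    linear_combination -this
  rw [e]
  exact Dvd.dvd.mul_left h _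

/-- general left summand. -/
lemma lhs_null (y : R) (m : ℕ) : ∃ N : ℕ, ∀ n, N ≤ n →
    (PowerSeries.X : R) ^ m ∣ y * q q₀ ^ n * poch y (q q₀) n * poch (q q₀) (q q₀) n :=
  ⟨k * m, fun n hn => Dvd.dvd.mul_left (poch_dvd _ k hk (X_dvd_q hk hq₀) m n hn) _⟩

lemma rhs_null (y : R) (m : ℕ) : ∃ N : ℕ, ∀ n, N ≤ n →
    (PowerSeries.X : R) ^ m ∣ (y * qinv q₀) ^ (n + 1) * poch (qinv q₀) (qinv q₀) n :=
  ⟨k * m, fun n hn => Dvd.dvd.mul_left (poch_dvd _ k hk (X_dvd_qinv hk hq₀) m n hn) _⟩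

lemma eq_of_forall_dvd (a b : R) (h : ∀ m : ℕ, (PowerSeries.X : R) ^ m ∣ a - b) : a = b := by
  ext1 n
  have := (PowerSeries.X_pow_dvd_iff.1 (h (n + 1))) n (by omega)
  rw [map_sub, sub_eq_zero] at this
  exact this

lemma value_rhs_fe (y : R) :
    y * (value (fun n => (y * qinv q₀) ^ (n + 1) * poch (qinv q₀) (qinv q₀) n) -
      value (fun n => (y * qinv q₀ * qinv q₀) ^ (n + 1) * poch (qinv q₀) (qinv q₀) n)) =
    q q₀ * value (fun n => (y * qinv q₀) ^ (n + 1) * poch (qinv q₀) (qinv q₀) n) - y := by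
  apply eq_of_forall_dvd hk hq₀
  intro m
  obtain ⟨N₁, h₁⟩ := (value_spec _ (rhs_null hk hq₀ y)).2 m
  obtain ⟨N₂, h₂⟩ := (value_spec _ (rhs_null hk hq₀ (y * qinv q₀))).2 m
  set N := max (max N₁ N₂) (k * m) with hN
  have a₁ := h₁ N (by omega)
  have a₂ := h₂ N (by omega)
  have a₃ := poch_dvd _ k hk (X_dvd_qinv hk hq₀) m N (by omega)
  have hfe := rhs_fe (qinv q₀) y (y * qinv q₀) N
  have hqq := q_mul_qinv (q0_ne hk hq₀)
  set F := value (fun n => (y * qinv q₀) ^ (n + 1) * poch (qinv q₀) (qinv q₀) n)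
  set F' := value (fun n => (y * qinv q₀ * qinv q₀) ^ (n + 1) * poch (qinv q₀) (qinv q₀) n)
  set s := ∑ n ∈ Finset.range N, (y * qinv q₀) ^ (n + 1) * poch (qinv q₀) (qinv q₀) n
  set s' := ∑ n ∈ Finset.range N, (y * qinv q₀ * qinv q₀) ^ (n + 1) * poch (qinv q₀) (qinv q₀) n
  have e : y * (F - F') - (q q₀ * F - y) = (y - q q₀) * (F - s) - y * (F' - s') +
      q q₀ * (y * qinv q₀) ^ (N + 1) * poch (qinv q₀) (qinv q₀) N := by
    have h3 : q q₀ * (y * qinv q₀) = y := by
      rw [mul_comm y, ← mul_assoc, hqq, one_mul]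
    linear_combination q q₀ * hfe + (- (s - s') - 1) * h3
  rw [e]
  exact dvd_add (dvd_sub (Dvd.dvd.mul_left a₁ _) (Dvd.dvd.mul_left a₂ _)) (Dvd.dvd.mul_left a₃ _)

lemma value_lhs_fe (y : R) :
    y * (value (fun n => y * q q₀ ^ n * poch y (q q₀) n * poch (q q₀) (q q₀) n) -
      value (fun n => (y * qinv q₀) * q q₀ ^ n * poch (y * qinv q₀) (q q₀) n *
        poch (q q₀) (q q₀) n)) =
    q q₀ * value (fun n => y * q q₀ ^ n * poch y (q q₀) n * poch (q q₀) (q q₀) n) - y := by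
  apply eq_of_forall_dvd hk hq₀
  intro m
  obtain ⟨N₁, h₁⟩ := (value_spec _ (lhs_null hk hq₀ y)).2 m
  obtain ⟨N₂, h₂⟩ := (value_spec _ (lhs_null hk hq₀ (y * qinv q₀))).2 m
  set N := max (max N₁ N₂) (k * m) with hN
  have a₁ := h₁ N (by omega)
  have a₂ := h₂ (N + 1) (by omega)
  have a₃ := poch_dvd _ k hk (X_dvd_q hk hq₀) m N (by omega)
  have hqq := q_mul_qinv (q0_ne hk hq₀)
  have hfe := lhs_fe (q q₀) (y * qinv q₀) N
  have hy : y * qinv q₀ * q q₀ = y := by
    rw [mul_assoc, mul_comm (qinv q₀), hqq, mul_one]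
  rw [hy] at hfe
  set F := value (fun n => y * q q₀ ^ n * poch y (q q₀) n * poch (q q₀) (q q₀) n)
  set F' := value (fun n => (y * qinv q₀) * q q₀ ^ n * poch (y * qinv q₀) (q q₀) n *
        poch (q q₀) (q q₀) n)
  set s := ∑ n ∈ Finset.range N, y * q q₀ ^ n * poch y (q q₀) n * poch (q q₀) (q q₀) n
  set s' := ∑ n ∈ Finset.range (N + 1), (y * qinv q₀) * q q₀ ^ n * poch (y * qinv q₀) (q q₀) n *
        poch (q q₀) (q q₀) n
  have e : y * (F - F') - (q q₀ * F - y) = (y - q q₀) * (F - s) - y * (F' - s') +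
      y * (1 - y * qinv q₀) * poch y (q q₀) N * poch (q q₀) (q q₀) N := by
    linear_combination -hfe
  rw [e]
  exact dvd_add (dvd_sub (Dvd.dvd.mul_left a₁ _) (Dvd.dvd.mul_left a₂ _)) (Dvd.dvd.mul_left a₃ _)

end

/-- **Identity (2) holds in `ℂ[p][[q - q₀]]` at every complex root of unity `q₀`**: both sides
converge, to the same element. -/
theorem result : ∀ q₀ : ℂ, (∃ k : ℕ, 1 ≤ k ∧ q₀ ^ k = 1) →
    Converges (lhs q₀) ∧ Converges (rhs q₀) ∧ value (lhs q₀) = value (rhs q₀) := by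
  rintro q₀ ⟨k, hk, hq₀⟩
  refine ⟨(value_spec _ (lhs_null hk hq₀ p)).1, (value_spec _ (rhs_null hk hq₀ p)).1, ?_⟩
  -- the difference of the two sides with `p` replaced by `y`
  obtain ⟨Δ, hΔd⟩ : ∃ Δ : R → R, ∀ y, Δ y =
    value (fun n => y * q q₀ ^ n * poch y (q q₀) n * poch (q q₀) (q q₀) n) -
    value (fun n => (y * qinv q₀) ^ (n + 1) * poch (qinv q₀) (qinv q₀) n) := ⟨_, fun _ => rfl⟩
  have hΔ : ∀ y, q q₀ * Δ y = y * (Δ y - Δ (y * qinv q₀)) := by
    intro y
    have h1 := value_lhs_fe hk hq₀ y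
    have h2 := value_rhs_fe hk hq₀ y
    rw [hΔd, hΔd]
    linear_combination h2 - h1
  have hqq := q_mul_qinv (q0_ne hk hq₀)
  have hdvd : ∀ n : ℕ, ∀ j : ℕ, p ^ n ∣ Δ (p * qinv q₀ ^ j) := by
    intro n
    induction n with
    | zero => intro j; simp
    | succ n ih =>
      intro j
      have h1 := hΔ (p * qinv q₀ ^ j)
      rw [show p * qinv q₀ ^ j * qinv q₀ = p * qinv q₀ ^ (j + 1) by rw [pow_succ, mul_assoc]] at h1
      have h2 : Δ (p * qinv q₀ ^ j) = p * (qinv q₀ * qinv q₀ ^ j *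
          (Δ (p * qinv q₀ ^ j) - Δ (p * qinv q₀ ^ (j + 1)))) := by
        linear_combination qinv q₀ * h1 - Δ (p * qinv q₀ ^ j) * hqq
      rw [h2, pow_succ']
      exact mul_dvd_mul dvd_rfl (Dvd.dvd.mul_left (dvd_sub (ih j) (ih (j + 1))) _)
  have hzero : Δ p = 0 := by
    ext1 b
    rw [map_zero]
    by_contra hne
    have h1 : ∀ n : ℕ, (Polynomial.X : Polynomial ℂ) ^ n ∣ PowerSeries.coeff b (Δ p) := by
      intro n
      have := hdvd n 0
      rw [pow_zero, mul_one] at this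
      obtain ⟨c, hc⟩ := this
      rw [hc, p, ← map_pow, PowerSeries.coeff_C_mul]
      exact dvd_mul_right _ _
    have h2 := h1 ((PowerSeries.coeff b (Δ p)).natDegree + 1)
    have h3 := Polynomial.natDegree_le_of_dvd h2 hne
    rw [Polynomial.natDegree_X_pow] at h3
    omega
  rw [hΔd] at hzero
  exact sub_eq_zero.1 hzero

end Pool.Agent.Results.MP_12a8d1_co.PolynomialExpansion
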