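import Mathlib

/-!
# The interval-order identity (1) wherever both sides converge
-/

open Finset

namespace Pool.Agent.Results.MP_12a8d1_co.TwoVariableExpansion

/-- The ring `ℂ[[u, v]]`; `u` is `X 0` and `v` is `X 1`. -/
abbrev R : Type := MvPowerSeries (Fin 2) ℂ

/-- A sum `∑_n f n` of elements of `ℂ[[u, v]]` converges if for every monomial only finitely many
summands have a nonzero coefficient of that monomial. -/
def Converges (f : ℕ → R) : Prop :=
  ∀ m : Fin 2 →₀ ℕ, {n : ℕ | MvPowerSeries.coeff m (f n) ≠ 0}.Finite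

/-- The value of a convergent sum: the coefficientwise sum. -/
noncomputable def value (f : ℕ → R) : R := fun m => ∑ᶠ n : ℕ, MvPowerSeries.coeff m (f n)

/-- The `q`-shifted factorial `(a; r)_n = ∏_{k < n} (1 - a r ^ k)`. -/
noncomputable def poch (a r : R) (n : ℕ) : R := ∏ k ∈ Finset.range n, (1 - a * r ^ k)

/-- The expansion `p = p₀ + u` of `p` at `p₀`. -/
noncomputable def p (p₀ : ℂ) : R := MvPowerSeries.C p₀ + MvPowerSeries.X 0

/-- The expansion `q = q₀ + v` of `q` at `q₀`. -/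
noncomputable def q (q₀ : ℂ) : R := MvPowerSeries.C q₀ + MvPowerSeries.X 1

/-- The `n`-th summand `(1/p; 1/q)_n` of the left side of (1), expanded at `(p₀, q₀)`. -/
noncomputable def lhs (p₀ q₀ : ℂ) (n : ℕ) : R := poch (p p₀)⁻¹ (q q₀)⁻¹ n

/-- The `n`-th summand `(p / q) ^ (n + 1) (1/q; 1/q)_n` of the right side of (1), expanded at
`(p₀, q₀)`. -/
noncomputable def rhs (p₀ q₀ : ℂ) (n : ℕ) : R :=
  (p p₀ * (q q₀)⁻¹) ^ (n + 1) * poch (q q₀)⁻¹ (q q₀)⁻¹ n

/-- All coefficients at monomials dividing `m` vanish. -/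
def Van (m : Fin 2 →₀ ℕ) (f : R) : Prop := ∀ j, j ≤ m → MvPowerSeries.coeff j f = 0

lemma Van.add {m : Fin 2 →₀ ℕ} {f g : R} (hf : Van m f) (hg : Van m g) : Van m (f + g) := by
  intro j hj
  rw [map_add, hf j hj, hg j hj, add_zero]

lemma Van.neg {m : Fin 2 →₀ ℕ} {f : R} (hf : Van m f) : Van m (-f) := by
  intro j hj
  rw [map_neg, hf j hj, neg_zero]

lemma Van.mul_left {m : Fin 2 →₀ ℕ} {f : R} (hf : Van m f) (g : R) : Van m (g * f) := by
  classical
  intro j hj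
  rw [MvPowerSeries.coeff_mul]
  apply Finset.sum_eq_zero
  intro x hx
  rw [Finset.HasAntidiagonal.mem_antidiagonal] at hx
  have : x.2 ≤ m := le_trans (by rw [← hx]; exact le_add_self) hj
  rw [hf x.2 this, mul_zero]

lemma Van.sum {m : Fin 2 →₀ ℕ} {ι : Type} (s : Finset ι) {f : ι → R}
    (hf : ∀ i ∈ s, Van m (f i)) : Van m (∑ i ∈ s, f i) := by
  intro j hj
  rw [map_sum]
  exact Finset.sum_eq_zero fun i hi => hf i hi j hj

lemma eventually_van (f : ℕ → R) (h : Converges f) (m : Fin 2 →₀ ℕ) :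
    ∃ N : ℕ, ∀ n, N ≤ n → Van m (f n) := by
  classical
  have hfin : (⋃ j ∈ (Finset.Icc 0 m), {n : ℕ | MvPowerSeries.coeff j (f n) ≠ 0}).Finite := by
    apply Set.Finite.biUnion (Finset.finite_toSet _)
    intro j _
    exact h j
  obtain ⟨N, hN⟩ := hfin.bddAbove
  refine ⟨N + 1, fun n hn j hj => ?_⟩
  by_contra hc
  have : n ∈ (⋃ j ∈ (Finset.Icc 0 m), {n : ℕ | MvPowerSeries.coeff j (f n) ≠ 0}) := by
    rw [Set.mem_iUnion₂]
    exact ⟨j, Finset.mem_Icc.2 ⟨zero_le, hj⟩, hc⟩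
  have := hN this
  omega

lemma value_spec (f : ℕ → R) (h : Converges f) (m : Fin 2 →₀ ℕ) :
    ∃ N₀ : ℕ, ∀ N, N₀ ≤ N → Van m (value f + -∑ n ∈ Finset.range N, f n) := by
  obtain ⟨N₀, hN₀⟩ := eventually_van f h m
  refine ⟨N₀, fun N hN j hj => ?_⟩
  rw [map_add, map_neg, map_sum, ← sub_eq_add_neg, sub_eq_zero]
  change (∑ᶠ n : ℕ, MvPowerSeries.coeff j (f n)) = _
  apply finsum_eq_sum_of_support_subset
  intro n hn
  rw [Function.mem_support] at hn
  by_contra hc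
  apply hn
  refine hN₀ n ?_ j hj
  simp at hc
  omega

lemma poch_succ (a r : R) (n : ℕ) : poch a r (n + 1) = poch a r n * (1 - a * r ^ n) := by
  unfold poch
  rw [Finset.prod_range_succ]

/-- Truncated functional equation. -/
lemma fe (y yi qi : R) (hy : y * yi = 1) (N : ℕ) :
    ∑ n ∈ Finset.range N, (y * qi) ^ (n + 1) * poch qi qi n =
      1 + (1 - yi) * ∑ n ∈ Finset.range N, y ^ (n + 1) * poch qi qi n -
        y ^ N * poch qi qi N := by
  induction N with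
  | zero => simp [poch]
  | succ N ih =>
    rw [Finset.sum_range_succ, Finset.sum_range_succ, ih, poch_succ]
    linear_combination (y ^ N * poch qi qi N) * hy

/-- The iterated truncated functional equation. -/
lemma iter (P Pi Q Qi : R) (hP : P * Pi = 1) (hQ : Q * Qi = 1) (N J : ℕ) :
    ∑ n ∈ Finset.range N, (P * Qi) ^ (n + 1) * poch Qi Qi n =
      ∑ j ∈ Finset.range J, poch Pi Qi j +
        poch Pi Qi J * ∑ n ∈ Finset.range N, (P * Q ^ J * Qi) ^ (n + 1) * poch Qi Qi n -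
        (∑ j ∈ Finset.range J, poch Pi Qi j * (P * Q ^ j) ^ N) * poch Qi Qi N := by
  induction J with
  | zero => simp [poch]
  | succ J ih =>
    rw [ih, Finset.sum_range_succ, Finset.sum_range_succ, poch_succ Pi Qi J]
    have hyy : (P * Q ^ J) * (Pi * Qi ^ J) = 1 := by
      calc (P * Q ^ J) * (Pi * Qi ^ J) = (P * Pi) * (Q * Qi) ^ J := by rw [mul_pow]; ring
        _ = 1 := by rw [hP, hQ, one_pow, one_mul]
    have h1 := fe (P * Q ^ J) (Pi * Qi ^ J) Qi hyy N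
    have h2 : ∀ n, (P * Q ^ (J + 1) * Qi) ^ (n + 1) = (P * Q ^ J) ^ (n + 1) := by
      intro n
      congr 1
      calc P * Q ^ (J + 1) * Qi = P * Q ^ J * (Q * Qi) := by rw [pow_succ]; ring
        _ = _ := by rw [hQ, mul_one]
    simp only [h2]
    linear_combination poch Pi Qi J * h1

/-- **Identity (1) holds in `ℂ[[p - p₀, q - q₀]]` whenever both sides converge there**, for all
nonzero `p₀, q₀`; in particular for roots of unity. -/
theorem result : ∀ p₀ q₀ : ℂ, p₀ ≠ 0 → q₀ ≠ 0 →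
    Converges (lhs p₀ q₀) → Converges (rhs p₀ q₀) → value (lhs p₀ q₀) = value (rhs p₀ q₀) := by
  intro p₀ q₀ hp₀ hq₀ hl hr
  have hP : p p₀ * (p p₀)⁻¹ = 1 := by
    apply MvPowerSeries.mul_inv_cancel
    unfold p
    simpa using hp₀
  have hQ : q q₀ * (q q₀)⁻¹ = 1 := by
    apply MvPowerSeries.mul_inv_cancel
    unfold q
    simpa using hq₀
  ext m
  -- `(1/q; 1/q)_n` tends to zero
  have hB : ∃ N : ℕ, ∀ n, N ≤ n → Van m (poch (q q₀)⁻¹ (q q₀)⁻¹ n) := by
    obtain ⟨N, hN⟩ := eventually_van _ hr m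
    refine ⟨N, fun n hn => ?_⟩
    have h1 := (hN n hn).mul_left (((p p₀)⁻¹ * q q₀) ^ (n + 1))
    have h2 : ((p p₀)⁻¹ * q q₀) ^ (n + 1) * rhs p₀ q₀ n = poch (q q₀)⁻¹ (q q₀)⁻¹ n := by
      unfold rhs
      rw [← mul_assoc, ← mul_pow]
      have : (p p₀)⁻¹ * q q₀ * (p p₀ * (q q₀)⁻¹) = 1 := by
        calc _ = (p p₀ * (p p₀)⁻¹) * (q q₀ * (q q₀)⁻¹) := by ring
          _ = 1 := by rw [hP, hQ, one_mul]
      rw [this, one_pow, one_mul]
    rwa [h2] at h1
  obtain ⟨N₁, h₁⟩ := hB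
  obtain ⟨N₂, h₂⟩ := value_spec _ hr m
  obtain ⟨J₁, h₃⟩ := eventually_van _ hl m
  obtain ⟨J₂, h₄⟩ := value_spec _ hl m
  set N := max N₁ N₂ with hN
  set J := max J₁ J₂ with hJ
  have a₁ := h₁ N (by omega)
  have a₂ := h₂ N (by omega)
  have a₃ := h₃ J (by omega)
  have a₄ := h₄ J (by omega)
  have hi := iter (p p₀) (p p₀)⁻¹ (q q₀) (q q₀)⁻¹ hP hQ N J
  have key : Van m (value (lhs p₀ q₀) + -value (rhs p₀ q₀)) := by
    have b₁ := a₁.mul_left (∑ j ∈ Finset.range J, poch (p p₀)⁻¹ (q q₀)⁻¹ j *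
      (p p₀ * q q₀ ^ j) ^ N)
    have b₃ := a₃.mul_left (∑ n ∈ Finset.range N, (p p₀ * q q₀ ^ J * (q q₀)⁻¹) ^ (n + 1) *
      poch (q q₀)⁻¹ (q q₀)⁻¹ n)
    have c := ((a₄.add a₂.neg).add b₃.neg).add b₁
    convert c using 1
    unfold lhs rhs at *
    linear_combination -hi
  have := key m le_rfl
  rw [map_add, map_neg, ← sub_eq_add_neg, sub_eq_zero] at this
  exact this

end Pool.Agent.Results.MP_12a8d1_co.TwoVariableExpansion
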